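import Pool.Agent.H811.SP.Cod3

set_option autoImplicit false

/-!
# A lower bound for coverings in each codimension: the entropy inequality

For a convex body `K` in `ℝⁿ` let `σ_ℓ(K)` be the smallest `ℓ`-dimensional volume of an orthogonal
projection of `K` to an `ℓ`-dimensional subspace.

**Theorem.**  Let a convex body `K` in `ℝⁿ` be covered by finitely many or countably many convex bodies
`A_i`, let `ℓ ≤ n`, and let `α_i = σ_ℓ(A_i) / σ_ℓ(K)`.  Then `∑ α_i (1 + |log α_i|) ^ (n - ℓ) ≥ 1`.

The inequality depends only on the codimension `d = n - ℓ`, not on the dimension.  If all `α_i ≤ 1`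
(otherwise `∑ σ_ℓ(A_i) ≥ σ_ℓ(K)` is trivial) it says `∑ α_i (1 + log (1 / α_i)) ^ d ≥ 1`.  For a covering
by `m` bodies and a fixed codimension it gives `∑ α_i ≥ (1 - o(1)) / (log m) ^ d` for `m → ∞`, and if
`σ_ℓ(A_i) ≥ η σ_ℓ(K)` for all `i` it gives `∑ α_i ≥ 1 / (1 + log (1 / η)) ^ d`.  There is equality if `K`
is covered by `K` alone; and for `ℓ = n - 1` and coverings by `m` bodies, `n / 2 < m ≤ n`, the bound
`(1 - o(1)) / log m` is sharp (`FewBodies`).

**Proof.**  Let `L_ℓ ⊂ L_{ℓ+1} ⊂ … ⊂ L_n = ℝⁿ` be subspaces with `dim L_j = j`, `K_j` and `A_j` the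
projections of `K` and of one of the bodies `A` to `L_j`, and let `D_j` be the part of `K_j` above `A_ℓ`.
With `φ(x) = x (1 + |log x|)` we show `|D_{j+1}| / |K_{j+1}| ≤ φ(|D_j| / |K_j|)`; then
`|K ∩ A| ≤ |D_n| ≤ φ(φ(… φ(|A_ℓ| / |K_ℓ|) …)) |K|` with `n - ℓ` times `φ`, where `|K_ℓ| ≥ σ_ℓ(K)`, and we
take the infimum over `L_ℓ` (`φ` is increasing and continuous).  Finally `x ≤ φ(x) ≤ 1` for
`0 < x ≤ 1`, so that `φ(φ(… φ(x) …)) ≤ x (1 + |log x|) ^ (n - ℓ)`, and we take the sum over the bodies.

For the step let `u` be a unit vector, `π` the projection along `u`, and for `s ≥ 0` let `g(s)` be the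
volume of `K ∩ (K - s u)`.  By the inequality of Prekopa and Leindler `log g` is concave,
`g(0) = |K|`, and the derivative of `g` at `0` is `- |π K|`; so `g(s) ≤ |K| e^{- s |π K| / |K|}`.  The part
of `K` above a set `B` of the projection has the volume
`∫_B ℓ(y) dy ≤ s |B| + ∫ (ℓ(y) - s)^+ dy = s |B| + g(s)`, `ℓ(y)` the length of the chord above `y`.
With `s = (|K| / |π K|) log (1 / x)`, `x = |B| / |π K|`, this is `φ(x) |K|`.
-/

namespace Pool.Agent.Results.MP_fedf83_gt.EntropyBound

open MeasureTheory Filter Topology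
open scoped ENNReal RealInnerProductSpace

/-- Euclidean space `ℝⁿ` -/
abbrev E (n : ℕ) : Type := EuclideanSpace ℝ (Fin n)

/-- A convex body: compact, convex, with non-empty interior. -/
def IsBody {n : ℕ} (K : Set (E n)) : Prop :=
  IsCompact K ∧ Convex ℝ K ∧ (interior K).Nonempty

/-- The coordinates `⟨v_i, x⟩` of the orthogonal projection of `x` to the subspace spanned by the
orthonormal family `v`, with respect to the orthonormal basis `v` of this subspace. -/
noncomputable def coord {n l : ℕ} (v : Fin l → E n) (x : E n) : Fin l → ℝ := fun i => ⟪v i, x⟫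

/-- `σ_ℓ(K)`: the infimum of the `ℓ`-dimensional volume of the orthogonal projection of `K` to an
`ℓ`-dimensional linear subspace; the subspace is given by an orthonormal basis `v`, and the volume is
Lebesgue measure in the coordinates with respect to this basis. -/
noncomputable def sigma {n : ℕ} (l : ℕ) (K : Set (E n)) : ℝ≥0∞ :=
  ⨅ (v : Fin l → E n) (_ : Orthonormal ℝ v), volume (coord v '' K)

/-- `σ_ℓ(A) / σ_ℓ(K)` for two bodies in `ℝⁿ` -/
noncomputable def ratio {n : ℕ} (l : ℕ) (A K : Set (E n)) : ℝ :=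
  (sigma l A / sigma l K).toReal

/-- **The entropy inequality.** -/
theorem result (n l : ℕ) (hl : l ≤ n) (K : Set (E n)) (hK : IsBody K) (I : Type) [Countable I]
    (A : I → Set (E n)) (hA : ∀ i, IsBody (A i)) (hc : K ⊆ ⋃ i, A i) :
    1 ≤ ∑' i, ENNReal.ofReal
      (ratio l (A i) K * (1 + |Real.log (ratio l (A i) K)|) ^ (n - l)) := by
  obtain ⟨d, rfl⟩ := Nat.exists_eq_add_of_le hl
  rw [Nat.add_sub_cancel_left]
  exact Pool.Agent.H811.SP.ent_cod hK.1 hK.2.1 hK.2.2 (fun i => (hA i).1) (fun i => (hA i).2.2) hc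

end Pool.Agent.Results.MP_fedf83_gt.EntropyBound
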