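import Pool.Agent.H811.SP.Thin2

set_option autoImplicit false

/-!
# Coverings by few bodies: the exact asymptotics of the optimal constant

For a convex body `K` in `ℝⁿ` let `σ_ℓ(K)` be the smallest `ℓ`-dimensional volume of an orthogonal
projection of `K` to an `ℓ`-dimensional subspace.  Let `c_{n,ℓ}(r)` be the infimum of
`∑ σ_ℓ(A_i) / σ_ℓ(K)` over all convex bodies `K` in `ℝⁿ` and all families of **at most `r`** convex
bodies `A_i` which cover `K`; so `c_{n,ℓ} = inf_r c_{n,ℓ}(r)` (for finite families).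

**Theorem.**  Let `r_n → ∞` with `log r_n ≤ (1 + o(1)) log n` (for example `r_n ≤ C n`).  Then
`c_{n,n-1}(r_n) ~ 1 / log r_n` for `n → ∞`.

So for coverings by a number of bodies which is at most `n^{1 + o(1)}` the question is answered
asymptotically, with the exact constant: each covering of a convex body in `ℝⁿ` by `r` bodies
satisfies `∑ σ_{n-1}(A_i) ≥ (1 - o(1)) σ_{n-1}(K) / log r`, and this is sharp.  The lower bound holds in
the following form for all `n` and all numbers `m` of bodies (`lower`):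
`∑ σ_{n-1}(A_i) ≥ ((1 - m e^{-t}) / t) σ_{n-1}(K)` for all `t > 0`, for instance
`≥ σ_{n-1}(K) / (2 log (2 m))`.  This does not depend on the dimension, and it is better than the known
`σ_{n-1}(K) / n` for all families of at most `e^{n/2} / 2` bodies.

**Proof of the lower bound.**  Let `u` be a unit vector, `π` the projection along `u`, and for `s ≥ 0`
let `g(s)` be the volume of `K ∩ (K - s u)`.  By the inequality of Prekopa and Leindler `log g` is
concave, `g(0) = |K|`, and the derivative of `g` at `0` is `- |π K|`; so `g(s) ≤ |K| e^{- s |π K| / |K|}`.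
The part of `K` above a set `B` of the projection has the volume
`∫_B ℓ(y) dy ≤ s |B| + ∫ (ℓ(y) - s)^+ dy = s |B| + g(s)`, `ℓ(y)` the length of the chord above `y`.
For `B = π A_i` and `s = t |K| / σ(K)` this gives
`|K ∩ A_i| ≤ t |K| |π A_i| / σ(K) + e^{-t} |K|`; take the infimum over `u` and the sum over `i`.

**Proof of the upper bound.**  Let `N = min (n, 2 (r_n - 1))`.  In `ℝ^N` we use the covering of the
simplex by `⌊N / 2⌋ + 1 ≤ r_n` bodies of `LogarithmicBound` (vertices `0, e_1, …, e_N` and `⌊N / 2⌋`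
disjoint pairs of vertices).  Thin prisms `K × [0, h]` give `c_{n+1,n}(r) ≤ c_{n,n-1}(r)` (`mono`):
`σ_n(A × [0, h]) ≤ h σ_{n-1}(A)`, and for small `h` one has `σ_n(K × [0, h]) ≥ (1 - ε) h σ_{n-1}(K)`,
because the projection of `K × [0, h]` along the unit vector `(a, b)` has at least the volume
`max (|b| |K|, |a| h σ_{n-1}(K))`.
-/

namespace Pool.Agent.Results.MP_fedf83_gt.FewBodies

open MeasureTheory Filter Topology
open scoped ENNReal RealInnerProductSpace

/-- Euclidean space `ℝⁿ` -/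
abbrev E (n : ℕ) : Type := EuclideanSpace ℝ (Fin n)

/-- A convex body: compact, convex, with non-empty interior. -/
def IsBody {n : ℕ} (K : Set (E n)) : Prop :=
  IsCompact K ∧ Convex ℝ K ∧ (interior K).Nonempty

/-- The coordinates `⟨v_i, x⟩` of the orthogonal projection of `x` to the subspace spanned by the
orthonormal family `v`, with respect to the orthonormal basis `v` of this subspace. -/
noncomputable def coord {n l : ℕ} (v : Fin l → E n) (x : E n) : Fin l → ℝ := fun i => ⟪v i, x⟫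

/-- `σ_ℓ(K)`: the infimum of the `ℓ`-dimensional volume of the orthogonal projection of `K` to an
`ℓ`-dimensional linear subspace; the subspace is given by an orthonormal basis `v`, and the volume is
Lebesgue measure in the coordinates with respect to this basis. -/
noncomputable def sigma {n : ℕ} (l : ℕ) (K : Set (E n)) : ℝ≥0∞ :=
  ⨅ (v : Fin l → E n) (_ : Orthonormal ℝ v), volume (coord v '' K)

/-- `c_{n,ℓ}(r)`: the infimum of `∑ σ_ℓ(A_i) / σ_ℓ(K)` over all convex bodies `K` in `ℝⁿ` and all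
families of at most `r` convex bodies which cover `K`. -/
noncomputable def cFew (r n l : ℕ) : ℝ≥0∞ :=
  sInf {t | ∃ (K : Set (E n)) (m : ℕ) (A : Fin m → Set (E n)), IsBody K ∧ m ≤ r ∧
    (∀ i, IsBody (A i)) ∧ K ⊆ ⋃ i, A i ∧ t = (∑ i, sigma l (A i)) / sigma l K}

/-- **the lower bound, for all `n` and all `r`** -/
theorem lower (k r : ℕ) (t : ℝ) (ht : 0 < t) :
    ENNReal.ofReal ((1 - r * Real.exp (-t)) / t) ≤ cFew r (k + 1) k := by
  refine le_sInf fun z hz => ?_
  obtain ⟨K, m, A, hK, hm, hA, hc, rfl⟩ := hz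
  refine le_trans (ENNReal.ofReal_le_ofReal ?_)
    (Pool.Agent.H811.SP.few hK.1 hK.2.1 hK.2.2 (fun i => (hA i).1) hc ht)
  have h1 : (m : ℝ) ≤ r := by exact_mod_cast hm
  have h2 := Real.exp_pos (-t)
  refine div_le_div_of_nonneg_right ?_ ht.le
  nlinarith

/-- the upper bound -/
theorem upper (k : ℕ) (hk : 1 ≤ k) (r : ℕ) (hr : (k + 1) / 2 + 1 ≤ r) (ρ : ℝ) (h0 : 0 < ρ)
    (h1 : ρ < 1) : cFew r (k + 1) k ≤ ENNReal.ofReal (Pool.Agent.H811.SP.bd k ρ) := by
  refine sInf_le_of_le (b := (∑ i : Fin ((k + 1) / 2 + 1), sigma k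
    (Fin.cons (α := fun _ => Set (E (k + 1))) (Pool.Agent.H811.SP.P' k) Pool.Agent.H811.SP.P i)) /
      sigma k (Pool.Agent.H811.SP.B k))
    ⟨Pool.Agent.H811.SP.B k, (k + 1) / 2 + 1,
      Fin.cons (α := fun _ => Set (E (k + 1))) (Pool.Agent.H811.SP.P' k) Pool.Agent.H811.SP.P,
      ⟨Pool.Agent.H811.SP.B_compact, Pool.Agent.H811.SP.B_convex, Pool.Agent.H811.SP.B_interior⟩,
      hr, fun i => ?_, fun x hx => ?_, rfl⟩ ?_
  · refine Fin.cases ?_ (fun i => ?_) i
    · exact ⟨Pool.Agent.H811.SP.P'_compact, Pool.Agent.H811.SP.P'_convex,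
        Pool.Agent.H811.SP.P'_interior⟩
    · exact ⟨Pool.Agent.H811.SP.P_compact i, Pool.Agent.H811.SP.P_convex i,
        Pool.Agent.H811.SP.P_interior i⟩
  · rcases Pool.Agent.H811.SP.cover hk hx with h | ⟨i, h⟩
    · exact Set.mem_iUnion.2 ⟨0, h⟩
    · exact Set.mem_iUnion.2 ⟨i.succ, h⟩
  · refine ENNReal.div_le_of_le_mul ?_
    rw [Fin.sum_univ_succ, add_comm]
    simp only [Fin.cons_zero, Fin.cons_succ]
    have hfin : Fact (Module.finrank ℝ (E (k + 1)) = k + 1) := ⟨finrank_euclideanSpace_fin⟩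
    have hd : ∀ v : E (k + 1), ‖v‖ = 1 → Module.finrank ℝ (Submodule.span ℝ {v})ᗮ = k :=
      fun v hv => Submodule.finrank_orthogonal_span_singleton (by
        rw [← norm_ne_zero_iff, hv]
        exact one_ne_zero)
    have hs : ∀ (L : Submodule ℝ (E (k + 1))), Module.finrank ℝ L = k → ∀ K : Set (E (k + 1)),
        sigma k K ≤ volume (L.orthogonalProjectionOnto '' K) := fun L hL K => by
      obtain ⟨v, hv, e⟩ := Pool.Agent.H811.SP.area_le L hL K
      exact (iInf₂_le v hv).trans (le_of_eq e)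
    have h2 := hs _ (hd (EuclideanSpace.single (Fin.last k) (1 : ℝ)) (by simp))
      (Pool.Agent.H811.SP.P' k)
    have h3 : ∀ i : Fin ((k + 1) / 2), sigma k (Pool.Agent.H811.SP.P i) ≤ _ := fun i =>
      hs _ (hd _ (Pool.Agent.H811.SP.u_norm i)) (Pool.Agent.H811.SP.P i)
    refine (add_le_add (Finset.sum_le_sum fun i _ => h3 i) h2).trans ?_
    have hb : 0 < Pool.Agent.H811.SP.bd k ρ := by
      unfold Pool.Agent.H811.SP.bd
      have e1 : 0 < 1 / (((k : ℝ) + 1) * ρ) := by positivity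
      have e2 : 0 ≤ 1 / ((((k + 1) / 2 : ℕ) : ℝ) * (1 - ρ) ^ (k + 1)) :=
        one_div_nonneg.2 (mul_nonneg (Nat.cast_nonneg _) (pow_nonneg (by linarith) _))
      have e3 : 0 ≤ 2 * √2 / ((k : ℝ) + 1) := by positivity
      linarith
    have ha : ENNReal.ofReal (Pool.Agent.H811.SP.bd k ρ) ≠ 0 := by simpa using hb
    unfold sigma
    simp_rw [ENNReal.mul_iInf_of_ne ha ENNReal.ofReal_ne_top]
    refine le_iInf₂ fun v hv => ?_
    obtain ⟨L, b, hL, hb'⟩ := Pool.Agent.H811.SP.exists_span v hv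
    have e : coord v = Pool.Agent.H811.SP.co fun i => (b i : E (k + 1)) := by
      funext x i
      show ⟪v i, x⟫ = ⟪(b i : E (k + 1)), x⟫
      rw [hb']
    rw [e, Pool.Agent.H811.SP.area_eq]
    exact Pool.Agent.H811.SP.final hk h0 h1 L hL

/-- thin prisms -/
theorem mono (r k : ℕ) : cFew r (k + 2) (k + 1) ≤ cFew r (k + 1) k := by
  refine le_sInf fun z hz => ?_
  obtain ⟨K, m, A, hK, hm, hA, hcov, rfl⟩ := hz
  have key : ∀ ε : ℝ, 0 < ε → ε < 1 →
      ENNReal.ofReal (1 - ε) * cFew r (k + 2) (k + 1) ≤ (∑ i, sigma k (A i)) / sigma k K := by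
    intro ε h0 h1
    obtain ⟨h, hh, hlow⟩ := Pool.Agent.H811.SP.thin_low hK.1 hK.2.1 hK.2.2 h0 h1
    have ha : ENNReal.ofReal (1 - ε) ≠ 0 := by
      simpa using h1
    have hh0 : ENNReal.ofReal h ≠ 0 := by
      simpa using hh
    have h2 : cFew r (k + 2) (k + 1) ≤ (∑ i, sigma (k + 1) (Pool.Agent.H811.SP.lift h (A i))) /
        sigma (k + 1) (Pool.Agent.H811.SP.lift h K) :=
      sInf_le ⟨Pool.Agent.H811.SP.lift h K, m, fun i => Pool.Agent.H811.SP.lift h (A i),
        ⟨Pool.Agent.H811.SP.lift_compact hK.1, Pool.Agent.H811.SP.lift_convex hK.2.1,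
          Pool.Agent.H811.SP.lift_interior hh hK.2.2⟩, hm,
        fun i => ⟨Pool.Agent.H811.SP.lift_compact (hA i).1,
          Pool.Agent.H811.SP.lift_convex (hA i).2.1,
          Pool.Agent.H811.SP.lift_interior hh (hA i).2.2⟩,
        Pool.Agent.H811.SP.lift_cover hcov, rfl⟩
    have h3 : (∑ i, sigma (k + 1) (Pool.Agent.H811.SP.lift h (A i))) /
        sigma (k + 1) (Pool.Agent.H811.SP.lift h K) ≤
        (ENNReal.ofReal h * ∑ i, sigma k (A i)) /
          (ENNReal.ofReal (1 - ε) * (ENNReal.ofReal h * sigma k K)) := by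
      refine ENNReal.div_le_div ?_ hlow
      rw [Finset.mul_sum]
      exact Finset.sum_le_sum fun i _ => Pool.Agent.H811.SP.thin_le hh (A i)
    calc ENNReal.ofReal (1 - ε) * cFew r (k + 2) (k + 1)
        ≤ ENNReal.ofReal (1 - ε) * ((ENNReal.ofReal h * ∑ i, sigma k (A i)) /
          (ENNReal.ofReal (1 - ε) * (ENNReal.ofReal h * sigma k K))) :=
          mul_le_mul_right (h2.trans h3) _
      _ = (∑ i, sigma k (A i)) / sigma k K := by
        rw [div_eq_mul_inv, div_eq_mul_inv, ENNReal.mul_inv (Or.inl ha)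
          (Or.inl ENNReal.ofReal_ne_top), ENNReal.mul_inv (Or.inl hh0)
          (Or.inl ENNReal.ofReal_ne_top)]
        calc ENNReal.ofReal (1 - ε) * (ENNReal.ofReal h * (∑ i, sigma k (A i)) *
              ((ENNReal.ofReal (1 - ε))⁻¹ * ((ENNReal.ofReal h)⁻¹ * (sigma k K)⁻¹)))
            = (ENNReal.ofReal (1 - ε) * (ENNReal.ofReal (1 - ε))⁻¹) *
              (ENNReal.ofReal h * (ENNReal.ofReal h)⁻¹) *
                ((∑ i, sigma k (A i)) * (sigma k K)⁻¹) := by ring
          _ = _ := by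
            rw [ENNReal.mul_inv_cancel ha ENNReal.ofReal_ne_top,
              ENNReal.mul_inv_cancel hh0 ENNReal.ofReal_ne_top, one_mul, one_mul]
  have ht : Tendsto (fun ε : ℝ => ENNReal.ofReal (1 - ε) * cFew r (k + 2) (k + 1))
      (nhdsWithin 0 (Set.Ioi 0)) (nhds (ENNReal.ofReal (1 - 0) * cFew r (k + 2) (k + 1))) := by
    refine ENNReal.Tendsto.mul_const ?_ (Or.inl (by simp))
    refine ENNReal.tendsto_ofReal ?_
    exact (tendsto_const_nhds.sub tendsto_id).mono_left nhdsWithin_le_nhds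
  rw [sub_zero, ENNReal.ofReal_one, one_mul] at ht
  refine le_of_tendsto ht ?_
  filter_upwards [Ioo_mem_nhdsGT (show (0 : ℝ) < 1 by norm_num)] with ε hε
  exact key ε hε.1 hε.2

/-- thin prisms, several times -/
theorem mono_le (r N n : ℕ) (hN : 1 ≤ N) (h : N ≤ n) : cFew r n (n - 1) ≤ cFew r N (N - 1) := by
  induction n, h using Nat.le_induction with
  | base => exact le_rfl
  | succ m hm ih =>
    obtain ⟨k, rfl⟩ : ∃ k, m = k + 1 := ⟨m - 1, by omega⟩
    rw [Nat.add_sub_cancel]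
    rw [Nat.add_sub_cancel] at ih
    exact (mono r k).trans ih

/-- **The optimal constant for coverings of convex bodies in `ℝⁿ` by at most `r_n` convex bodies is
asymptotically equal to `1 / log r_n`**, if `r_n → ∞` and `log r_n ≤ (1 + o(1)) log n`. -/
theorem result (r : ℕ → ℕ) (hr : Tendsto r atTop atTop)
    (hr' : ∀ δ : ℝ, 0 < δ → ∀ᶠ n : ℕ in atTop, Real.log (r n) ≤ (1 + δ) * Real.log n) :
    Tendsto (fun n : ℕ => ENNReal.ofReal (Real.log (r n)) * cFew (r n) n (n - 1)) atTop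
      (𝓝 1) := by
  have hlog : Tendsto (fun n : ℕ => Real.log (r n)) atTop atTop :=
    Real.tendsto_log_atTop.comp (tendsto_natCast_atTop_atTop.comp hr)
  -- the lower bound
  have hlow : ∀ δ : ℝ, 0 < δ → δ < 1 → ∀ᶠ n : ℕ in atTop,
      ENNReal.ofReal (1 - δ) ≤ ENNReal.ofReal (Real.log (r n)) * cFew (r n) n (n - 1) := by
    intro δ h0 h1
    have e2 : ∀ᶠ n : ℕ in atTop, 1 ≤ Real.log (r n) := hlog.eventually_ge_atTop 1
    have e3 : ∀ᶠ n : ℕ in atTop, -Real.log (δ / 4) / (δ / 2) ≤ Real.log (r n) :=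
      hlog.eventually_ge_atTop _
    filter_upwards [e2, e3, hr.eventually_ge_atTop 1, eventually_ge_atTop 1] with n a2 a3 a4 a5
    obtain ⟨k, rfl⟩ : ∃ k, n = k + 1 := ⟨n - 1, by omega⟩
    rw [Nat.add_sub_cancel]
    have hr0 : 0 < (r (k + 1) : ℝ) := by exact_mod_cast a4
    set ℓ := Real.log (r (k + 1)) with hℓ
    have hℓ0 : 0 < ℓ := by linarith
    have ht : 0 < (1 + δ / 2) * ℓ := by positivity
    have h2 := lower k (r (k + 1)) ((1 + δ / 2) * ℓ) ht
    refine le_trans ?_ (mul_le_mul_right h2 _)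
    rw [← ENNReal.ofReal_mul hℓ0.le]
    refine ENNReal.ofReal_le_ofReal ?_
    have h3 : (r (k + 1) : ℝ) * Real.exp (-((1 + δ / 2) * ℓ)) ≤ δ / 4 := by
      have h4 : (r (k + 1) : ℝ) = Real.exp ℓ := (Real.exp_log hr0).symm
      calc (r (k + 1) : ℝ) * Real.exp (-((1 + δ / 2) * ℓ))
          = Real.exp ℓ * Real.exp (-((1 + δ / 2) * ℓ)) := by rw [← h4]
        _ = Real.exp (-(δ / 2 * ℓ)) := by
            rw [← Real.exp_add]
            congr 1
            ring
        _ ≤ δ / 4 := by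
            rw [div_le_iff₀ (by positivity)] at a3
            rw [← Real.le_log_iff_exp_le (by positivity)]
            linarith
    have h5 : ℓ * ((1 - r (k + 1) * Real.exp (-((1 + δ / 2) * ℓ))) / ((1 + δ / 2) * ℓ)) =
        (1 - r (k + 1) * Real.exp (-((1 + δ / 2) * ℓ))) / (1 + δ / 2) := by
      field_simp
    rw [h5, le_div_iff₀ (by positivity)]
    nlinarith
  -- the upper bound
  have hup : ∀ δ : ℝ, 0 < δ → ∀ᶠ n : ℕ in atTop,
      ENNReal.ofReal (Real.log (r n)) * cFew (r n) n (n - 1) ≤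
        ENNReal.ofReal ((1 + δ) * (1 + δ)) := by
    intro δ h0
    have h := Pool.Agent.H811.SP.asym δ h0
    rw [eventually_atTop] at h
    obtain ⟨a, ha⟩ := h
    filter_upwards [hlog.eventually_ge_atTop 1, hr.eventually_ge_atTop (a + 3), hr' δ h0,
      eventually_ge_atTop (a + 3)] with n a2 a3 a4 a5
    obtain ⟨k, hk⟩ : ∃ k, min n (2 * (r n - 1)) = k + 1 := ⟨min n (2 * (r n - 1)) - 1, by omega⟩
    obtain ⟨hk1, ρ, b0, b1, b2⟩ := ha k (by omega)
    have h3 := (upper k hk1 (r n) (by omega) ρ b0 b1).trans (ENNReal.ofReal_le_ofReal b2)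
    have h4 : cFew (r n) n (n - 1) ≤ cFew (r n) (k + 1) k :=
      mono_le (r n) (k + 1) n (by omega) (by omega)
    have hN : 1 < ((k + 1 : ℕ) : ℝ) := by
      have : 1 < k + 1 := by omega
      exact_mod_cast this
    have hℓN : 0 < Real.log ((k + 1 : ℕ) : ℝ) := Real.log_pos hN
    have hℓ0 : 0 < Real.log (r n) := by linarith
    have hr0 : 0 < (r n : ℝ) := by
      have : 0 < r n := by omega
      exact_mod_cast this
    have h5 : Real.log (r n) ≤ (1 + δ) * Real.log ((k + 1 : ℕ) : ℝ) := by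
      rcases le_total n (2 * (r n - 1)) with h6 | h6
      · have h7 : n = k + 1 := by omega
        rw [← h7]
        exact a4
      · have h7 : r n ≤ k + 1 := by omega
        have h8 : (r n : ℝ) ≤ ((k + 1 : ℕ) : ℝ) := by exact_mod_cast h7
        have h9 := Real.log_le_log hr0 h8
        nlinarith
    refine (mul_le_mul_right (h4.trans h3) _).trans ?_
    rw [← ENNReal.ofReal_mul hℓ0.le]
    refine ENNReal.ofReal_le_ofReal ?_
    rw [mul_div_assoc', div_le_iff₀ hℓN]
    nlinarith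
  rw [ENNReal.tendsto_nhds ENNReal.one_ne_top]
  intro ε hε
  obtain ⟨δ, hδ0, hδε⟩ : ∃ δ : ℝ, 0 < δ ∧ ENNReal.ofReal δ ≤ ε := by
    rcases eq_or_ne ε ⊤ with h | h
    · exact ⟨1, one_pos, by rw [h]; exact le_top⟩
    · exact ⟨ε.toReal, ENNReal.toReal_pos hε.ne' h, le_of_eq (ENNReal.ofReal_toReal h)⟩
  have hm : 0 < min δ (1 / 2) := by positivity
  have hm1 : min δ (1 / 2) < 1 := (min_le_right _ _).trans_lt (by norm_num)
  have hmε : ENNReal.ofReal (min δ (1 / 2)) ≤ ε :=
    (ENNReal.ofReal_le_ofReal (min_le_left _ _)).trans hδε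
  filter_upwards [hlow _ hm hm1, hup (min δ (1 / 2) / 3) (by positivity)] with n c1 c2
  constructor
  · refine le_trans ?_ c1
    rw [ENNReal.ofReal_sub _ hm.le, ENNReal.ofReal_one]
    exact tsub_le_tsub_left hmε 1
  · refine c2.trans ?_
    have h6 : (1 + min δ (1 / 2) / 3) * (1 + min δ (1 / 2) / 3) ≤ 1 + min δ (1 / 2) := by
      nlinarith
    refine (ENNReal.ofReal_le_ofReal h6).trans ?_
    rw [ENNReal.ofReal_add zero_le_one hm.le, ENNReal.ofReal_one]
    exact add_le_add le_rfl hmε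

end Pool.Agent.Results.MP_fedf83_gt.FewBodies
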