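import Pool.Agent.H811.SP.Mono

set_option autoImplicit false

/-!
# The optimal constants for projections of high dimension tend to zero

For a convex body `K` in `ℝⁿ` let `σ_ℓ(K)` be the smallest `ℓ`-dimensional volume of an orthogonal
projection of `K` to an `ℓ`-dimensional subspace.  `c_{n,ℓ}` is the infimum of
`∑ σ_ℓ(A_i) / σ_ℓ(K)` over all convex bodies `K` in `ℝⁿ` and all finite or countably infinite
families of convex bodies `A_i` which cover `K`.  It is known that `1 / n ≤ c_{n,n-1} < 1`.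

**Theorem.**  For all `δ > 0` there is `ℓ₀` such that `c_{n,ℓ} ≤ (1 + δ) / log (ℓ + 1)` for all
`ℓ ≥ ℓ₀` and **all** `n > ℓ`.  In particular `c_{n,n-1} ≤ (1 + δ) / log n` for all large `n`.

So `c_{n,ℓ}` tends to `0` for `ℓ → ∞`, uniformly in `n > ℓ`: there is no inequality
`∑ σ_ℓ(A_i) ≥ c σ_ℓ(K)` with a constant `c > 0` which does not depend on `ℓ`.  We also prove that
`c_{n,ℓ}` is a non-increasing function of `n` (`mono`).

**Proof for `ℓ = n - 1`.**  Let `K` be the simplex with the vertices `0, e_1, …, e_n`.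
(1) *The smallest projection.*  Let `u` be a unit vector and `s > 0`.  With the barycentric
coordinates `λ_j` one sees that `K ∩ (K - s u)` is contained in a translate of `(1 - s / √2) K`, where
`√2` is the diameter of `K`.  So the set of points of the projection along `u` whose chord has a
length `≥ s` has the volume `≤ (1 - s / √2)^{n-1} |π K|`, and integration over `s` gives
`|K| ≤ √2 |π K| / n`, that is `σ_{n-1}(K) ≥ n |K| / √2`.
(2) *The covering.*  Take `⌊n / 2⌋` disjoint pairs of the vertices `e_1, …, e_n`, and let `S_i` be the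
sum of the two barycentric coordinates of the pair `i`.  The lines in the direction `u_i` of the edge
number `i` meet `K` in chords of length `√2 S_i`, and all `S_j` are constant along these lines.  Let
`P_i` be the part of `K` with `S_i = max_j S_j` and `∑_j S_j ≥ 1 / 2`; the rest of `K` is contained in a
convex piece `P'` with long chords in the direction of `e_n`, `|π P'| ≤ 2 |K|`.  The area of the
projection of `P_i` along `u_i` is the integral of `1 / (√2 S_i)` over `P_i`.  Here `S_i ≥ 1 / n`, and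
`S_i ≥ R / n` outside the set `Q` of all points for which all `S_j ≤ R / n`.
(3) *The set `Q` is small.*  The homotheties of ratio `1 - R / n` with centres at the first points of
the pairs map `Q` to disjoint subsets of `K`, so `⌊n / 2⌋ (1 - R / n)^n |Q| ≤ |K|`.
Together `c_{n,n-1} ≤ 1 / R + 1 / (⌊n / 2⌋ (1 - R / n)^n) + 2 √2 / n` (`bound`), and one takes
`R = (1 - η) log n`.

**Proof of `c_{n+1,ℓ} ≤ c_{n,ℓ}`.**  Replace all bodies by the prisms `K × [0, M]`.  Clearly
`σ_ℓ(A × [0, M]) ≤ σ_ℓ(A)`, and for each `ε > 0` one has `σ_ℓ(K × [0, M]) ≥ (1 - ε) σ_ℓ(K)` for large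
`M`: if the subspace `L` is almost orthogonal to the new direction then the projection of `K` to `L`
is the image of a projection in `ℝⁿ` under a linear map of determinant `≥ 1 - ε`; otherwise the
projection of `K × [0, M]` contains many disjoint balls.
-/

namespace Pool.Agent.Results.MP_fedf83_gt.LogarithmicBound

open MeasureTheory Filter
open scoped ENNReal RealInnerProductSpace

/-- Euclidean space `ℝⁿ` -/
abbrev E (n : ℕ) : Type := EuclideanSpace ℝ (Fin n)

/-- A convex body: compact, convex, with non-empty interior. -/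
def IsBody {n : ℕ} (K : Set (E n)) : Prop :=
  IsCompact K ∧ Convex ℝ K ∧ (interior K).Nonempty

/-- The coordinates `⟨v_i, x⟩` of the orthogonal projection of `x` to the subspace spanned by the
orthonormal family `v`, with respect to the orthonormal basis `v` of this subspace. -/
noncomputable def coord {n l : ℕ} (v : Fin l → E n) (x : E n) : Fin l → ℝ := fun i => ⟪v i, x⟫

/-- `σ_ℓ(K)`: the infimum of the `ℓ`-dimensional volume of the orthogonal projection of `K` to an
`ℓ`-dimensional linear subspace; the subspace is given by an orthonormal basis `v`, and the volume is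
Lebesgue measure in the coordinates with respect to this basis. -/
noncomputable def sigma {n : ℕ} (l : ℕ) (K : Set (E n)) : ℝ≥0∞ :=
  ⨅ (v : Fin l → E n) (_ : Orthonormal ℝ v), volume (coord v '' K)

/-- `c_{n,ℓ}`: the infimum of `∑ σ_ℓ(A_i) / σ_ℓ(K)` over all convex bodies `K` in `ℝⁿ` and all finite
or countably infinite families of convex bodies which cover `K`. -/
noncomputable def c (n l : ℕ) : ℝ≥0∞ :=
  sInf {r | ∃ (K : Set (E n)) (I : Type) (A : I → Set (E n)), IsBody K ∧ Countable I ∧
    (∀ i, IsBody (A i)) ∧ K ⊆ ⋃ i, A i ∧ r = (∑' i, sigma l (A i)) / sigma l K}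

/-- the inequality for all dimensions -/
theorem bound (k : ℕ) (hk : 1 ≤ k) (r : ℝ) (h0 : 0 < r) (h1 : r < 1) :
    c (k + 1) k ≤ ENNReal.ofReal (Pool.Agent.H811.SP.bd k r) := by
  refine sInf_le_of_le (b := (∑' i : Option (Fin ((k + 1) / 2)), sigma k
    (i.elim (Pool.Agent.H811.SP.P' k) Pool.Agent.H811.SP.P)) / sigma k (Pool.Agent.H811.SP.B k))
    ⟨Pool.Agent.H811.SP.B k, Option (Fin ((k + 1) / 2)), fun i =>
      i.elim (Pool.Agent.H811.SP.P' k) Pool.Agent.H811.SP.P, ⟨Pool.Agent.H811.SP.B_compact,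
      Pool.Agent.H811.SP.B_convex, Pool.Agent.H811.SP.B_interior⟩, inferInstance, fun i => ?_,
      fun x hx => ?_, rfl⟩ ?_
  · cases i with
    | none => exact ⟨Pool.Agent.H811.SP.P'_compact, Pool.Agent.H811.SP.P'_convex,
        Pool.Agent.H811.SP.P'_interior⟩
    | some i => exact ⟨Pool.Agent.H811.SP.P_compact i, Pool.Agent.H811.SP.P_convex i,
        Pool.Agent.H811.SP.P_interior i⟩
  · rcases Pool.Agent.H811.SP.cover hk hx with h | ⟨i, h⟩
    · exact Set.mem_iUnion.2 ⟨none, h⟩
    · exact Set.mem_iUnion.2 ⟨some i, h⟩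
  · refine ENNReal.div_le_of_le_mul ?_
    rw [tsum_fintype, Fintype.sum_option, add_comm]
    have hfin : Fact (Module.finrank ℝ (E (k + 1)) = k + 1) := ⟨finrank_euclideanSpace_fin⟩
    have hd : ∀ v : E (k + 1), ‖v‖ = 1 → Module.finrank ℝ (Submodule.span ℝ {v})ᗮ = k :=
      fun v hv => Submodule.finrank_orthogonal_span_singleton (by
        rw [← norm_ne_zero_iff, hv]
        exact one_ne_zero)
    have hs : ∀ (L : Submodule ℝ (E (k + 1))), Module.finrank ℝ L = k → ∀ K : Set (E (k + 1)),
        sigma k K ≤ volume (L.orthogonalProjectionOnto '' K) := fun L hL K => by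
      obtain ⟨v, hv, e⟩ := Pool.Agent.H811.SP.area_le L hL K
      exact (iInf₂_le v hv).trans (le_of_eq e)
    have h2 := hs _ (hd (EuclideanSpace.single (Fin.last k) (1 : ℝ)) (by simp))
      (Pool.Agent.H811.SP.P' k)
    have h3 : ∀ i : Fin ((k + 1) / 2), sigma k (Pool.Agent.H811.SP.P i) ≤ _ := fun i =>
      hs _ (hd _ (Pool.Agent.H811.SP.u_norm i)) (Pool.Agent.H811.SP.P i)
    refine (add_le_add (Finset.sum_le_sum fun i _ => h3 i) h2).trans ?_
    have hb : 0 < Pool.Agent.H811.SP.bd k r := by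
      unfold Pool.Agent.H811.SP.bd
      have e1 : 0 < 1 / (((k : ℝ) + 1) * r) := by positivity
      have e2 : 0 ≤ 1 / ((((k + 1) / 2 : ℕ) : ℝ) * (1 - r) ^ (k + 1)) :=
        one_div_nonneg.2 (mul_nonneg (Nat.cast_nonneg _) (pow_nonneg (by linarith) _))
      have e3 : 0 ≤ 2 * √2 / ((k : ℝ) + 1) := by positivity
      linarith
    have ha : ENNReal.ofReal (Pool.Agent.H811.SP.bd k r) ≠ 0 := by simpa using hb
    unfold sigma
    simp_rw [ENNReal.mul_iInf_of_ne ha ENNReal.ofReal_ne_top]
    refine le_iInf₂ fun v hv => ?_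
    obtain ⟨L, b, hL, hb'⟩ := Pool.Agent.H811.SP.exists_span v hv
    have e : coord v = Pool.Agent.H811.SP.co fun i => (b i : E (k + 1)) := by
      funext x i
      show ⟪v i, x⟫ = ⟪(b i : E (k + 1)), x⟫
      rw [hb']
    rw [e, Pool.Agent.H811.SP.area_eq]
    exact Pool.Agent.H811.SP.final hk h0 h1 L hL

/-- `c_{n,ℓ}` is non-increasing in `n` -/
theorem mono (n l : ℕ) (h : l ≤ n) : c (n + 1) l ≤ c n l := by
  refine le_sInf fun r hr => ?_
  obtain ⟨K, I, A, hK, hI, hA, hcov, rfl⟩ := hr
  have key : ∀ ε : ℝ, 0 < ε → ε < 1 →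
      ENNReal.ofReal (1 - ε) * c (n + 1) l ≤ (∑' i, sigma l (A i)) / sigma l K := by
    intro ε h0 h1
    obtain ⟨M, hM, hlow⟩ := Pool.Agent.H811.SP.low_lift h hK.1 hK.2.2 h0 h1
    have ha : ENNReal.ofReal (1 - ε) ≠ 0 := by
      simpa using h1
    have h2 : c (n + 1) l ≤ (∑' i, sigma l (Pool.Agent.H811.SP.lift M (A i))) /
        sigma l (Pool.Agent.H811.SP.lift M K) :=
      sInf_le ⟨Pool.Agent.H811.SP.lift M K, I, fun i => Pool.Agent.H811.SP.lift M (A i),
        ⟨Pool.Agent.H811.SP.lift_compact hK.1, Pool.Agent.H811.SP.lift_convex hK.2.1,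
          Pool.Agent.H811.SP.lift_interior hM hK.2.2⟩, hI,
        fun i => ⟨Pool.Agent.H811.SP.lift_compact (hA i).1,
          Pool.Agent.H811.SP.lift_convex (hA i).2.1,
          Pool.Agent.H811.SP.lift_interior hM (hA i).2.2⟩,
        Pool.Agent.H811.SP.lift_cover hcov, rfl⟩
    have h3 : (∑' i, sigma l (Pool.Agent.H811.SP.lift M (A i))) /
        sigma l (Pool.Agent.H811.SP.lift M K) ≤
        (∑' i, sigma l (A i)) / (ENNReal.ofReal (1 - ε) * sigma l K) :=
      ENNReal.div_le_div (ENNReal.tsum_le_tsum fun i => Pool.Agent.H811.SP.sg_lift_le M (A i)) hlow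
    calc ENNReal.ofReal (1 - ε) * c (n + 1) l
        ≤ ENNReal.ofReal (1 - ε) * ((∑' i, sigma l (A i)) /
          (ENNReal.ofReal (1 - ε) * sigma l K)) := mul_le_mul_right (h2.trans h3) _
      _ = (∑' i, sigma l (A i)) / sigma l K := by
        rw [div_eq_mul_inv, div_eq_mul_inv, ENNReal.mul_inv (Or.inl ha)
          (Or.inl ENNReal.ofReal_ne_top), mul_left_comm, ← mul_assoc (ENNReal.ofReal (1 - ε)),
          ENNReal.mul_inv_cancel ha ENNReal.ofReal_ne_top, one_mul]
  have ht : Tendsto (fun ε : ℝ => ENNReal.ofReal (1 - ε) * c (n + 1) l)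
      (nhdsWithin 0 (Set.Ioi 0)) (nhds (ENNReal.ofReal (1 - 0) * c (n + 1) l)) := by
    refine ENNReal.Tendsto.mul_const ?_ (Or.inl (by simp))
    refine ENNReal.tendsto_ofReal ?_
    exact (tendsto_const_nhds.sub tendsto_id).mono_left nhdsWithin_le_nhds
  rw [sub_zero, ENNReal.ofReal_one, one_mul] at ht
  refine le_of_tendsto ht ?_
  filter_upwards [Ioo_mem_nhdsGT (show (0 : ℝ) < 1 by norm_num)] with ε hε
  exact key ε hε.1 hε.2

/-- **For all `δ > 0` one has `c_{n,ℓ} ≤ (1 + δ) / log (ℓ + 1)` for all large `ℓ` and all `n > ℓ`.** -/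
theorem result (δ : ℝ) (hδ : 0 < δ) :
    ∀ᶠ l : ℕ in atTop, ∀ n : ℕ, l < n → c n l ≤ ENNReal.ofReal ((1 + δ) / Real.log (l + 1)) := by
  filter_upwards [Pool.Agent.H811.SP.asym δ hδ] with l h n hn
  obtain ⟨hk, r, h0, h1, h2⟩ := h
  induction n, hn using Nat.le_induction with
  | base =>
    refine (bound l hk r h0 h1).trans (ENNReal.ofReal_le_ofReal ?_)
    rw [Nat.cast_add, Nat.cast_one] at h2
    exact h2
  | succ m hm ih => exact (mono m l (by omega)).trans ih

end Pool.Agent.Results.MP_fedf83_gt.LogarithmicBound
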